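import Pool.Agent.LE.StmtsQ

/-!
# CUT: the equation for the weighted, truncated Green function
-/

set_option autoImplicit false

open MeasureTheory ProbabilityTheory Function Filter

open scoped ENNReal BigOperators Topology NNReal

noncomputable section

namespace Pool.Agent.LE.CL.H45

open Pool.Agent.Anderson Pool.Agent.Loc Pool.Agent.Mob Pool.Agent.Helper54.Bal
  Pool.Agent.Helper96.EXP Pool.Agent.BED

variable {d : ℕ}

/-- the Green function applied to `ω 1_C` -/
def phi (V ω : Site d → ℝ) (Λ C : Finset (Site d)) (E : ℝ) (y : Site d) : ℝ :=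
  ∑ x ∈ C, gr V Λ E y x * ω x

/-- the weight -/
def wt (b : Site d) (r₀ : ℕ) (κ : ℝ) (y : Site d) : ℝ :=
  Real.exp (-(κ * ((sd b y - r₀ : ℕ) : ℝ)))

theorem phi_eq {V ω : Site d → ℝ} {Λ C : Finset (Site d)} {E : ℝ} (hC : C ⊆ Λ)
    (hdet : (RM V Λ E).det ≠ 0) {y : Site d} (hy : y ∈ Λ) :
    (E - V y) * phi V ω Λ C E y - nb (phi V ω Λ C E) y = if y ∈ C then ω y else 0 := by
  classical
  have hout : ∀ w, w ∉ Λ → phi V ω Λ C E w = 0 := by
    intro w hw
    unfold phi
    refine Finset.sum_eq_zero fun x _ => ?_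
    have : gr V Λ E w x = 0 := by
      unfold gr
      rw [dif_neg fun hh => hw hh.1]
    rw [this, zero_mul]
  unfold nb
  rw [H73.sum_nb Λ (phi V ω Λ C E) hout y]
  have h1 : ∀ x ∈ C, (E - V y) * (gr V Λ E y x * ω x) -
      ∑ w ∈ Λ, hop y w * (gr V Λ E w x * ω x) = if y = x then ω x else 0 := by
    intro x hx
    have h2 := rm_mul_gr hdet hy (hC hx)
    have h3 : ∀ w ∈ Λ, rm V E y w * gr V Λ E w x =
        (if y = w then (E - V y) * gr V Λ E w x else 0) - hop y w * gr V Λ E w x := by
      intro w _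
      rw [rm, sub_mul]
      congr 1
      split_ifs <;> ring
    rw [Finset.sum_congr rfl h3, Finset.sum_sub_distrib, Finset.sum_ite_eq, if_pos hy] at h2
    have h4 : ∑ w ∈ Λ, hop y w * (gr V Λ E w x * ω x) =
        (∑ w ∈ Λ, hop y w * gr V Λ E w x) * ω x := by
      rw [Finset.sum_mul]
      refine Finset.sum_congr rfl fun w _ => by ring
    rw [h4, ← mul_assoc, ← sub_mul, h2]
    split_ifs <;> ring
  have h5 : ∑ w ∈ Λ, hop y w * phi V ω Λ C E w =
      ∑ x ∈ C, ∑ w ∈ Λ, hop y w * (gr V Λ E w x * ω x) := by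
    rw [Finset.sum_comm]
    refine Finset.sum_congr rfl fun w _ => ?_
    unfold phi
    rw [Finset.mul_sum]
  rw [h5]
  unfold phi
  rw [Finset.mul_sum, ← Finset.sum_sub_distrib, Finset.sum_congr rfl h1, Finset.sum_ite_eq]

theorem phi_le {V ω : Site d → ℝ} {Λ C : Finset (Site d)} {E T : ℝ} {y : Site d}
    (hω : ∀ x, |ω x - 1| ≤ 1 / 50) (hT : ∀ x ∈ C, |gr V Λ E y x| ≤ T) :
    |phi V ω Λ C E y| ≤ C.card * (T * (51 / 50)) := by
  unfold phi
  refine (Finset.abs_sum_le_sum_abs _ _).trans ?_
  refine (Finset.sum_le_card_nsmul C _ (T * (51 / 50)) fun x hx => ?_).trans (le_of_eq ?_)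
  · rw [abs_mul]
    have h1 := abs_le.1 (hω x)
    have h2 : |ω x| ≤ 51 / 50 := abs_le.2 ⟨by linarith [h1.1], by linarith [h1.2]⟩
    exact mul_le_mul (hT x hx) h2 (abs_nonneg _) ((abs_nonneg _).trans (hT x hx))
  · rw [nsmul_eq_mul]

theorem sd_nb (b x y : Site d) (h : sd x y ≤ 1) : sd b y ≤ sd b x + 1 := by
  have := sd_triangle b x y
  omega

theorem wt_pos (b : Site d) (r₀ : ℕ) (κ : ℝ) (y : Site d) : 0 < wt b r₀ κ y := Real.exp_pos _

theorem wt_nb {b : Site d} {r₀ : ℕ} {κ : ℝ} (hκ : 0 ≤ κ) {x y : Site d} (h : sd y x ≤ 1) :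
    wt b r₀ κ x ≤ Real.exp κ * wt b r₀ κ y := by
  unfold wt
  rw [← Real.exp_add]
  apply Real.exp_le_exp.2
  have h1 := sd_nb b x y (by rw [sd_comm]; exact h)
  have h2 : (sd b y - r₀ : ℕ) ≤ (sd b x - r₀ : ℕ) + 1 := by omega
  have h3 : (((sd b y - r₀ : ℕ)) : ℝ) ≤ ((sd b x - r₀ : ℕ) : ℝ) + 1 := by exact_mod_cast h2
  nlinarith [mul_le_mul_of_nonneg_left h3 hκ]

/-- one term of the error -/
theorem term_le {V ω : Site d → ℝ} {Λ C : Finset (Site d)} {E G κ : ℝ} {b : Site d}
    {r₀ R₁ : ℕ} (hω : ∀ x, |ω x - 1| ≤ 1 / 50) (hκ : 0 ≤ κ) (hCb : C ⊆ box b r₀)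
    (hG : ∀ x ∈ box b (r₀ + R₁ + 1), ∀ y ∈ box b (r₀ + R₁ + 1), |gr V Λ E x y| ≤ G) {y x : Site d}
    (hy : r₀ + R₁ ≤ sd b y) (hx : x ∈ box b (r₀ + R₁ + 1)) :
    |wt b r₀ κ y * phi V ω Λ C E x| ≤
      Real.exp (-(κ * R₁)) * (C.card * (G * (51 / 50))) := by
  rw [abs_mul, abs_of_pos (wt_pos _ _ _ _)]
  have h1 : wt b r₀ κ y ≤ Real.exp (-(κ * R₁)) := by
    unfold wt
    apply Real.exp_le_exp.2
    have h2 : (R₁ : ℝ) ≤ ((sd b y - r₀ : ℕ) : ℝ) := by
      have : R₁ ≤ sd b y - r₀ := by omega
      exact_mod_cast this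
    nlinarith [mul_le_mul_of_nonneg_left h2 hκ]
  have h3 : |phi V ω Λ C E x| ≤ C.card * (G * (51 / 50)) :=
    phi_le hω fun z hz => hG x hx z (box_mono b (by omega) (hCb hz))
  exact mul_le_mul h1 h3 (abs_nonneg _) (Real.exp_pos _).le

theorem cut : CutStmt := by
  intro d V ω Λ C b r₀ R₁ z E lam κ k s G hd hω hk0 hk hωe hκ0 hκ1 hE hCne hCb hΛ hdet hG1 hG
    hcard hs hR
  classical
  set r : ℕ := r₀ + R₁ with hr
  have hbb : box b r ⊆ box b (r + 1) := box_mono b (by omega)
  have hCr : C ⊆ box b r := hCb.trans (box_mono b (by omega))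
  have hCΛ : C ⊆ Λ := (hCr.trans hbb).trans hΛ
  set φ : Site d → ℝ := phi V ω Λ C E with hφ
  set χ : Site d → ℝ := wt b r₀ κ with hχ
  set ψ : Site d → ℝ := fun y => if y ∈ box b r then χ y * φ y else 0 with hψ
  set e : Site d → ℝ := fun y => (E - V y) * ψ y - nb ψ y - (if y ∈ C then ω y else 0) -
      ∑ i : Fin d, ((χ y / χ (y + Pi.single i 1) - 1) * ψ (y + Pi.single i 1) +
        (χ y / χ (y - Pi.single i 1) - 1) * ψ (y - Pi.single i 1)) with he
  have hχ0 : ∀ y, 0 < χ y := fun y => wt_pos _ _ _ _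
  have hcC : (C.card : ℝ) ≤ (2 * (r : ℝ) + 3) ^ d := by
    have h1 : C.card ≤ (2 * r₀ + 1) ^ d := by
      rw [← card_box b r₀]
      exact Finset.card_le_card hCb
    have h2 : (2 * r₀ + 1) ^ d ≤ (2 * r + 3) ^ d := Nat.pow_le_pow_left (by omega) d
    exact_mod_cast h1.trans h2
  have hcC2 : (C.card : ℝ) ≤ (2 * (r : ℝ) + 1) ^ d := by
    have h1 : C.card ≤ (2 * r + 1) ^ d := by
      rw [← card_box b r]
      exact Finset.card_le_card hCr
    exact_mod_cast h1
  refine ⟨χ, ψ, e, ⟨hω, ⟨hk0, hk⟩, hωe, ⟨hκ0, hκ1⟩, hχ0, ?_, ⟨hCne, ?_, ?_, hcard⟩, ?_, ?_, ?_,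
    hE, ?_⟩⟩
  · intro x i
    refine ⟨wt_nb hκ0 (sd_add_single_le x i), wt_nb hκ0 ?_⟩
    rw [sd_comm]
    exact sd_add_single_le x i
  · intro y hy
    rw [mem_clu]
    exact Or.inl hy
  · intro y hy
    rw [mem_clu] at hy
    rcases hy with hy | hy
    · exact hCr hy
    · exact hy.1
  · intro x hx
    rw [hψ]
    simp only
    rw [if_neg hx]
  · -- the mass outside the cluster
    have h1 : ∀ x ∈ box b r \ clu V Λ E s C (box b r), |ψ x| ≤
        (2 * (r : ℝ) + 1) ^ d * (Real.exp (-s) * (51 / 50)) := by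
      intro x hx
      rw [Finset.mem_sdiff, mem_clu] at hx
      have hx1 := hx.1
      have hx2 := hx.2
      push Not at hx2
      have h2 : |φ x| ≤ C.card * (Real.exp (-s) * (51 / 50)) := by
        refine phi_le hω fun w hw => ?_
        rw [gr_symm]
        exact (hx2.2 hx1 w hw).le
      have h3 : χ x ≤ 1 := by
        rw [hχ, wt, Real.exp_le_one_iff]
        have : 0 ≤ κ * ((sd b x - r₀ : ℕ) : ℝ) := by positivity
        linarith
      rw [hψ]
      simp only
      rw [if_pos hx1, abs_mul, abs_of_pos (hχ0 x)]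
      calc χ x * |φ x| ≤ 1 * |φ x| := mul_le_mul_of_nonneg_right h3 (abs_nonneg _)
        _ = |φ x| := one_mul _
        _ ≤ C.card * (Real.exp (-s) * (51 / 50)) := h2
        _ ≤ _ := mul_le_mul_of_nonneg_right hcC2 (by positivity)
    refine (Finset.sum_le_card_nsmul _ _ _ h1).trans ?_
    rw [nsmul_eq_mul]
    have h4 : ((box b r \ clu V Λ E s C (box b r)).card : ℝ) ≤ (2 * (r : ℝ) + 1) ^ d := by
      have h5 : (box b r \ clu V Λ E s C (box b r)).card ≤ (2 * r + 1) ^ d := by
        rw [← card_box b r]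
        exact Finset.card_le_card Finset.sdiff_subset
      exact_mod_cast h5
    have h6 : 200 * ((2 * (r : ℝ) + 1) ^ d * (2 * (r : ℝ) + 1) ^ d) * Real.exp (-s) ≤ 1 := by
      rw [Real.exp_neg, ← div_eq_mul_inv, div_le_one (Real.exp_pos _)]
      refine le_trans (le_of_eq ?_) hs
      ring
    calc _ ≤ (2 * (r : ℝ) + 1) ^ d * ((2 * (r : ℝ) + 1) ^ d * (Real.exp (-s) * (51 / 50))) :=
          mul_le_mul_of_nonneg_right h4 (by positivity)
      _ = (200 * ((2 * (r : ℝ) + 1) ^ d * (2 * (r : ℝ) + 1) ^ d) * Real.exp (-s)) *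
          (51 / 10000) := by ring
      _ ≤ 1 * (51 / 10000) := mul_le_mul_of_nonneg_right h6 (by norm_num)
      _ ≤ 1 / 100 := by norm_num
  · -- the error
    set T : ℝ := Real.exp (-(κ * R₁)) * (C.card * (G * (51 / 50))) with hT
    have hT0 : 0 ≤ T := by
      rw [hT]
      positivity
    have h1 : ∀ y ∈ box b (r + 1), |e y| ≤ 2 * d * T := by
      intro y hy
      by_cases hyr : y ∈ box b r
      · -- inside
        have h2 : e y = ∑ i : Fin d, ((χ y * φ (y + Pi.single i 1) -
            (χ y / χ (y + Pi.single i 1)) * ψ (y + Pi.single i 1)) +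
            (χ y * φ (y - Pi.single i 1) -
            (χ y / χ (y - Pi.single i 1)) * ψ (y - Pi.single i 1))) := by
          have h3 := phi_eq (ω := ω) hCΛ hdet (hΛ hy)
          rw [← hφ] at h3
          have h4 : χ y * (if y ∈ C then ω y else 0) = if y ∈ C then ω y else 0 := by
            by_cases hyC : y ∈ C
            · have h5 : χ y = 1 := by
                have h6 := mem_box.1 (hCb hyC)
                rw [hχ, wt]
                have h7 : (sd b y - r₀ : ℕ) = 0 := by omega
                rw [h7]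
                simp
              rw [h5, one_mul]
            · rw [if_neg hyC, mul_zero]
          have h5 : (E - V y) * ψ y = χ y * nb φ y + if y ∈ C then ω y else 0 := by
            rw [← h4, ← h3, hψ]
            simp only
            rw [if_pos hyr]
            ring
          rw [he]
          simp only
          rw [h5]
          unfold nb
          rw [Finset.mul_sum]
          have h6 : ∀ A B C' D : ℝ, A + B - C' - B - D = A - C' - D := fun A B C' D => by ring
          rw [h6, ← Finset.sum_sub_distrib, ← Finset.sum_sub_distrib]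
          refine Finset.sum_congr rfl fun i _ => ?_
          ring
        have h7 : ∀ x : Site d, sd y x ≤ 1 → |χ y * φ x - (χ y / χ x) * ψ x| ≤ T := by
          intro x hx
          by_cases hxr : x ∈ box b r
          · have h8 : χ y * φ x - (χ y / χ x) * ψ x = 0 := by
              rw [hψ]
              simp only
              rw [if_pos hxr]
              have := (hχ0 x).ne'
              field_simp
              ring
            rw [h8, abs_zero]
            exact hT0
          · have h8 : ψ x = 0 := by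
              rw [hψ]
              simp only
              rw [if_neg hxr]
            rw [h8, mul_zero, sub_zero]
            have h9 := mem_box.1 hyr
            have h10 : ¬ sd b x ≤ r := fun h => hxr (mem_box.2 h)
            have h11 := sd_nb b y x hx
            exact term_le hω hκ0 hCb hG (by omega) (mem_box.2 (by omega))
        rw [h2]
        refine (Finset.abs_sum_le_sum_abs _ _).trans ?_
        refine (Finset.sum_le_card_nsmul _ _ (T + T) fun i _ => ?_).trans (le_of_eq ?_)
        · refine (abs_add_le _ _).trans (add_le_add ?_ ?_)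
          · exact h7 _ (sd_add_single_le y i)
          · exact h7 _ (sd_sub_single_le y i)
        · rw [Finset.card_univ, Fintype.card_fin, nsmul_eq_mul]
          ring
      · -- outside
        have hψy : ψ y = 0 := by
          rw [hψ]
          simp only
          rw [if_neg hyr]
        have hyC : y ∉ C := fun h => hyr (hCr h)
        have h2 : e y = ∑ i : Fin d, (-((χ y / χ (y + Pi.single i 1)) * ψ (y + Pi.single i 1)) +
            -((χ y / χ (y - Pi.single i 1)) * ψ (y - Pi.single i 1))) := by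
          rw [he]
          simp only
          rw [hψy, if_neg hyC]
          unfold nb
          have h6 : ∀ C' D : ℝ, (E - V y) * 0 - C' - 0 - D = -(C' + D) := fun C' D => by ring
          rw [h6, ← Finset.sum_add_distrib, ← Finset.sum_neg_distrib]
          refine Finset.sum_congr rfl fun i _ => ?_
          ring
        have h7 : ∀ x : Site d, sd y x ≤ 1 → |-((χ y / χ x) * ψ x)| ≤ T := by
          intro x hx
          by_cases hxr : x ∈ box b r
          · have h8 : (χ y / χ x) * ψ x = χ y * φ x := by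
              rw [hψ]
              simp only
              rw [if_pos hxr]
              have := (hχ0 x).ne'
              field_simp
            rw [abs_neg, h8]
            have h10 : ¬ sd b y ≤ r := fun h => hyr (mem_box.2 h)
            exact term_le hω hκ0 hCb hG (by omega) (hbb hxr)
          · have h8 : ψ x = 0 := by
              rw [hψ]
              simp only
              rw [if_neg hxr]
            rw [h8, mul_zero, neg_zero, abs_zero]
            exact hT0
        rw [h2]
        refine (Finset.abs_sum_le_sum_abs _ _).trans ?_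
        refine (Finset.sum_le_card_nsmul _ _ (T + T) fun i _ => ?_).trans (le_of_eq ?_)
        · refine (abs_add_le _ _).trans (add_le_add ?_ ?_)
          · exact h7 _ (sd_add_single_le y i)
          · exact h7 _ (sd_sub_single_le y i)
        · rw [Finset.card_univ, Fintype.card_fin, nsmul_eq_mul]
          ring
    refine (Finset.sum_le_card_nsmul _ _ _ h1).trans ?_
    rw [nsmul_eq_mul, card_box]
    have h3 : (((2 * (r + 1) + 1) ^ d : ℕ) : ℝ) = (2 * (r : ℝ) + 3) ^ d := by
      push_cast
      congr 1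
      ring
    rw [h3]
    have h4 : 300 * d * ((2 * (r : ℝ) + 3) ^ d * (2 * (r : ℝ) + 3) ^ d) * G *
        Real.exp (-(κ * R₁)) ≤ 1 := by
      rw [Real.exp_neg, ← div_eq_mul_inv, div_le_one (Real.exp_pos _)]
      refine le_trans (le_of_eq ?_) hR
      ring
    have hG0 : 0 ≤ G := by linarith
    calc (2 * (r : ℝ) + 3) ^ d * (2 * d * T) ≤ (2 * (r : ℝ) + 3) ^ d * (2 * d *
          (Real.exp (-(κ * R₁)) * ((2 * (r : ℝ) + 3) ^ d * (G * (51 / 50))))) := by
          rw [hT]
          gcongr
      _ = (300 * d * ((2 * (r : ℝ) + 3) ^ d * (2 * (r : ℝ) + 3) ^ d) * G *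
          Real.exp (-(κ * R₁))) * (102 / 15000) := by ring
      _ ≤ 1 * (102 / 15000) := mul_le_mul_of_nonneg_right h4 (by norm_num)
      _ ≤ 1 / 100 := by norm_num
  · intro y hy
    rw [he]
    simp only
    ring

end Pool.Agent.LE.CL.H45
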