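import Pool.Agent.LE.StmtsQ

/-!
# PEN: the Lyapunov exponent near the edge, numbers
-/

set_option autoImplicit false

open MeasureTheory ProbabilityTheory Function Filter

open scoped ENNReal BigOperators Topology NNReal

noncomputable section

namespace Pool.Agent.LE.CL.H45

open Pool.Agent.Anderson Pool.Agent.Loc Pool.Agent.Mob Pool.Agent.Helper54.Bal
  Pool.Agent.Helper96.EXP Pool.Agent.BED

/-- the side of the cubes -/
theorem exists_m {D lam : ℝ} (hD : 1 ≤ D) (hl : 0 < lam) (hl2 : lam ≤ 1 / (100 * D)) :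
    ∃ m : ℕ, lam * (2 * (m : ℝ) + 1) ^ 2 ≤ 1 / (100 * D) ∧
      1 ≤ 30 * D * (Real.sqrt lam * (2 * (m : ℝ) + 1)) ∧
      Real.sqrt lam * (2 * (m : ℝ) + 1) ≤ 1 := by
  have hD0 : 0 < D := by linarith only [hD]
  have hs : 0 < Real.sqrt lam := Real.sqrt_pos.2 hl
  have hss : Real.sqrt lam ^ 2 = lam := Real.sq_sqrt hl.le
  set Q : ℕ → Prop := fun m => lam * (2 * (m : ℝ) + 1) ^ 2 ≤ 1 / (100 * D) with hQ
  have hbd : ∃ m : ℕ, ¬ Q m := by
    obtain ⟨m, hm⟩ := exists_nat_gt (1 / lam)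
    refine ⟨m, fun h => ?_⟩
    have h1 : 1 / (100 * D) ≤ 1 := by
      rw [div_le_one (mul_pos (by norm_num) hD0)]
      linarith only [hD]
    have h2 : lam * (2 * (m : ℝ) + 1) ^ 2 ≤ 1 := le_trans h h1
    have h3 : 1 < (m : ℝ) * lam := by
      rwa [div_lt_iff₀ hl] at hm
    have h4 : (0 : ℝ) ≤ m := Nat.cast_nonneg m
    linarith only [h2, h3, hl, mul_nonneg hl.le (mul_nonneg h4 h4), mul_nonneg hl.le h4]
  classical
  have h0 : Q 0 := by
    rw [hQ]
    simp only [Nat.cast_zero, mul_zero, zero_add, one_pow, mul_one]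
    exact hl2
  set k := Nat.find hbd with hk
  have hk1 : ¬ Q k := Nat.find_spec hbd
  have hk0 : k ≠ 0 := by
    intro h
    rw [h] at hk1
    exact hk1 h0
  obtain ⟨m, hm⟩ := Nat.exists_eq_succ_of_ne_zero hk0
  have hQm : Q m := by
    by_contra h
    have := Nat.find_min' hbd h
    omega
  have hk2 : 1 / (100 * D) < lam * (2 * ((m : ℝ) + 1) + 1) ^ 2 := by
    have h1 : ¬ Q (m + 1) := by
      rw [← Nat.succ_eq_add_one, ← hm]
      exact hk1
    rw [hQ] at h1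
    simp only [Nat.cast_add, Nat.cast_one, not_le] at h1
    exact h1
  have hm0 : (0 : ℝ) ≤ m := Nat.cast_nonneg m
  refine ⟨m, hQm, ?_, ?_⟩
  · obtain ⟨y, hy⟩ : ∃ y : ℝ, y = Real.sqrt lam * (2 * (m : ℝ) + 1) := ⟨_, rfl⟩
    rw [← hy]
    have hy0 : 0 < y := by
      rw [hy]
      exact mul_pos hs (by linarith only [hm0])
    have h1 : lam * (2 * ((m : ℝ) + 1) + 1) ^ 2 ≤ 9 * y ^ 2 := by
      have h2 : 9 * y ^ 2 = lam * (3 * (2 * (m : ℝ) + 1)) ^ 2 := by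
        rw [hy, mul_pow, hss]
        ring
      rw [h2]
      apply mul_le_mul_of_nonneg_left _ hl.le
      apply pow_le_pow_left₀ (by linarith only [hm0])
      linarith only [hm0]
    have h3 : 1 / (100 * D) < 9 * y ^ 2 := lt_of_lt_of_le hk2 h1
    rw [div_lt_iff₀ (mul_pos (by norm_num) hD0)] at h3
    by_contra hcon
    push Not at hcon
    have h4 : 0 < 30 * D * y := mul_pos (mul_pos (by norm_num) hD0) hy0
    have h5 : (30 * D * y) * (30 * D * y) < 1 * 1 := mul_lt_mul'' hcon hcon h4.le h4.le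
    have h6 : D * 1 ≤ D * D := mul_le_mul_of_nonneg_left hD hD0.le
    have h7 := mul_le_mul_of_nonneg_right h6 (sq_nonneg y)
    linarith only [h3, h5, h7]
  · have h1 : (Real.sqrt lam * (2 * (m : ℝ) + 1)) ^ 2 ≤ 1 := by
      rw [mul_pow, hss]
      refine le_trans hQm ?_
      rw [div_le_one (mul_pos (by norm_num) hD0)]
      linarith only [hD]
    by_contra hc
    push Not at hc
    have h2 := mul_lt_mul'' hc hc zero_le_one zero_le_one
    linarith only [h1, h2]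

/-- `K log² t ≤ √t` for large `t` -/
theorem log_sq_le {K t : ℝ} (hK : 1 ≤ K) (ht : (64 * K) ^ 4 ≤ t) :
    K * Real.log t ^ 2 ≤ Real.sqrt t := by
  have hK0 : 0 < K := by linarith only [hK]
  have ht1 : 1 ≤ t := by
    refine le_trans ?_ ht
    have : (1 : ℝ) ≤ 64 * K := by linarith only [hK]
    exact one_le_pow₀ this
  have ht0 : 0 < t := by linarith only [ht1]
  obtain ⟨y, hy⟩ : ∃ y : ℝ, y = t ^ (1 / 8 : ℝ) := ⟨_, rfl⟩
  have hy0 : 0 < y := by
    rw [hy]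
    exact Real.rpow_pos_of_pos ht0 _
  have hy8 : y ^ 8 = t := by
    rw [hy, ← Real.rpow_natCast, ← Real.rpow_mul ht0.le]
    norm_num
  have hlog : Real.log t ≤ 8 * y := by
    have := Real.log_le_rpow_div ht0.le (show (0 : ℝ) < 1 / 8 by norm_num)
    rw [← hy] at this
    linarith only [this]
  have hlog0 : 0 ≤ Real.log t := Real.log_nonneg ht1
  have hsq : Real.sqrt t = y ^ 4 := by
    rw [← hy8]
    have : y ^ 8 = (y ^ 4) ^ 2 := by ring
    rw [this, Real.sqrt_sq (pow_nonneg hy0.le 4)]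
  have h1 : 64 * K ≤ y ^ 2 := by
    by_contra hcon
    push Not at hcon
    have h2 : (y ^ 2) ^ 4 < (64 * K) ^ 4 :=
      pow_lt_pow_left₀ hcon (sq_nonneg y) (by norm_num)
    have h3 : (y ^ 2) ^ 4 = t := by rw [← hy8]; ring
    rw [h3] at h2
    linarith only [h2, ht]
  rw [hsq]
  have h2 : Real.log t ^ 2 ≤ 64 * y ^ 2 := by
    have h5 := pow_le_pow_left₀ hlog0 hlog 2
    linarith only [h5]
  calc K * Real.log t ^ 2 ≤ K * (64 * y ^ 2) := mul_le_mul_of_nonneg_left h2 hK0.le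
    _ = (64 * K) * y ^ 2 := by ring
    _ ≤ y ^ 2 * y ^ 2 := mul_le_mul_of_nonneg_right h1 (sq_nonneg y)
    _ = y ^ 4 := by ring

/-- first condition -/
theorem cond1 {D w X t : ℝ} {d J : ℕ} (hDd : D = d) (hd0 : 0 < D) (hw1 : 1 ≤ w)
    (hexpw : Real.exp w = t) (hX0 : 0 ≤ X) (hbig : 2 * X + 5 ≤ t)
    (hJge : 2 * D * w + 1 ≤ (J : ℝ)) : ((2 * X + 1) ^ d : ℝ) < 2 ^ J := by
  have h1 : (2 * X + 1) ^ d ≤ t ^ d :=
    pow_le_pow_left₀ (by linarith only [hX0]) (by linarith only [hbig]) d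
  have h2 : t ^ d < (2 : ℝ) ^ J := by
    have h3 : t ^ d = Real.exp (d * w) := by rw [Real.exp_nat_mul, hexpw]
    have h4 : (2 : ℝ) ^ J = Real.exp (J * Real.log 2) := by
      rw [Real.exp_nat_mul, Real.exp_log (by norm_num)]
    rw [h3, h4, ← hDd]
    apply Real.exp_lt_exp.2
    have h5 := Real.log_two_gt_d9
    have h6 : (2 * D * w + 1) * Real.log 2 ≤ J * Real.log 2 :=
      mul_le_mul_of_nonneg_right hJge (by linarith only [h5])
    have h7 : 0 < D * w := mul_pos hd0 (by linarith only [hw1])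
    have h8 : (D * w) * (1 / 2) ≤ (D * w) * Real.log 2 :=
      mul_le_mul_of_nonneg_left (by linarith only [h5]) h7.le
    linarith only [h6, h8, h5]
  exact lt_of_le_of_lt h1 h2

/-- third condition -/
theorem cond3 {D w X t A S R : ℝ} {d : ℕ} (hDd : D = d) (hd0 : 0 < D)
    (hexpw : Real.exp w = t) (hX0 : 0 ≤ X) (hbig : 2 * X + 5 ≤ t) (hA : A = 50 * D * (5 * D + 6))
    (hS1 : 1 ≤ S) (hR : A * w * S ≤ R) (ht300 : 300 * D ≤ t) (ht200 : 200 ≤ t) :
    300 * D * (2 * X + 3) ^ (2 * d) * t ^ (3 * d + 4) ≤ Real.exp (R / (50 * D * S)) := by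
  have ht0 : 0 < t := by linarith only [ht200]
  have h1 : (2 * X + 3) ^ (2 * d) ≤ t ^ (2 * d) :=
    pow_le_pow_left₀ (by linarith only [hX0]) (by linarith only [hbig]) _
  have h2 : Real.exp (((5 * d + 6 : ℕ) : ℝ) * w) ≤ Real.exp (R / (50 * D * S)) := by
    apply Real.exp_le_exp.2
    rw [le_div_iff₀ (mul_pos (mul_pos (by norm_num) hd0) (by linarith only [hS1]))]
    refine le_trans (le_of_eq ?_) hR
    rw [hA]
    push_cast
    rw [← hDd]
    ring
  refine le_trans ?_ h2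
  rw [Real.exp_nat_mul, hexpw]
  have h3 : t ^ (5 * d + 6) = t * t * (t ^ (2 * d) * t ^ (3 * d + 4)) := by ring
  have h4 : 0 < t ^ (3 * d + 4) := pow_pos ht0 _
  have h5 : 300 * D ≤ t * t := by
    calc 300 * D ≤ t := ht300
      _ = t * 1 := (mul_one _).symm
      _ ≤ t * t := mul_le_mul_of_nonneg_left (by linarith only [ht200]) ht0.le
  rw [h3]
  calc 300 * D * (2 * X + 3) ^ (2 * d) * t ^ (3 * d + 4) ≤
        (t * t) * t ^ (2 * d) * t ^ (3 * d + 4) := by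
        apply mul_le_mul_of_nonneg_right _ h4.le
        exact mul_le_mul h5 h1 (pow_nonneg (by linarith only [hX0]) _)
          (mul_nonneg ht0.le ht0.le)
    _ = _ := by ring

/-- the second part of the probability -/
theorem q2le {X t σ : ℝ} {d : ℕ} (hX0 : 0 ≤ X) (hbig : 2 * X + 5 ≤ t) (ht200 : 200 ≤ t)
    (hσ0 : 0 < σ) (hσt : 1 / σ ≤ t) :
    10 * (2 * X + 3) ^ (2 * d) / (σ * t ^ (3 * d + 4)) * t ^ d ≤ 1 / 2 := by
  have ht0 : 0 < t := by linarith only [ht200]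
  have htd : 0 < t ^ d := pow_pos ht0 d
  have h1 : (2 * X + 3) ^ (2 * d) ≤ t ^ (2 * d) :=
    pow_le_pow_left₀ (by linarith only [hX0]) (by linarith only [hbig]) _
  have h2 : 1 ≤ t * σ := by
    rw [div_le_iff₀ hσ0] at hσt
    exact hσt
  rw [div_mul_eq_mul_div, div_le_iff₀ (mul_pos hσ0 (pow_pos ht0 _))]
  have h4 : 1 / 2 * (σ * t ^ (3 * d + 4)) =
      (t * σ) * (1 / 2 * t ^ 3) * (t ^ (2 * d) * t ^ d) := by
    ring
  rw [h4]
  have h5 : 10 * 1 ≤ (t * σ) * (1 / 2 * t ^ 3) := by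
    have h6 : 10 ≤ 1 / 2 * t ^ 3 := by
      have : (200 : ℝ) ^ 3 ≤ t ^ 3 := pow_le_pow_left₀ (by norm_num) ht200 3
      norm_num at this
      linarith only [this]
    calc (10 : ℝ) * 1 = 1 * 10 := by norm_num
      _ ≤ _ := mul_le_mul h2 h6 (by norm_num) (by linarith only [h2])
  calc 10 * (2 * X + 3) ^ (2 * d) * t ^ d ≤ 10 * t ^ (2 * d) * t ^ d := by
        apply mul_le_mul_of_nonneg_right _ htd.le
        linarith only [h1]
    _ = 10 * 1 * (t ^ (2 * d) * t ^ d) := by ring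
    _ ≤ _ := mul_le_mul_of_nonneg_right h5 (mul_nonneg (pow_nonneg ht0.le _) htd.le)

/-- the number of points -/
theorem nle {S : ℝ} {d a n : ℕ} (hd : 1 ≤ d) (hS1 : 1 ≤ S) (haS : (a : ℝ) = S ^ d)
    (han : a ≤ 4 * n) {y : ℝ} (hm2 : 1 ≤ 30 * d * (y * S)) :
    (n : ℝ) ^ (-(1 / (d : ℝ))) ≤ 120 * d * y := by
  have hd1 : (1 : ℝ) ≤ d := by exact_mod_cast hd
  have hd0 : (0 : ℝ) < d := by linarith only [hd1]
  have hS0 : 0 < S := by linarith only [hS1]
  have h3 : S ^ d / 4 ≤ (n : ℝ) := by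
    have : (a : ℝ) ≤ 4 * n := by exact_mod_cast han
    rw [haS] at this
    linarith only [this]
  have h4 : (0 : ℝ) < S ^ d / 4 := div_pos (pow_pos hS0 d) (by norm_num)
  have h5 : (n : ℝ) ^ (-(1 / (d : ℝ))) ≤ (S ^ d / 4) ^ (-(1 / (d : ℝ))) := by
    apply Real.rpow_le_rpow_of_nonpos h4 h3
    have : 0 < 1 / (d : ℝ) := one_div_pos.2 hd0
    linarith only [this]
  refine h5.trans ?_
  rw [Real.rpow_neg h4.le, Real.div_rpow (pow_nonneg hS0.le d) (by norm_num), inv_div]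
  have h6 : (S ^ d) ^ (1 / (d : ℝ)) = S := by
    rw [one_div, Real.pow_rpow_inv_natCast hS0.le (Nat.one_le_iff_ne_zero.1 hd)]
  have h7 : (4 : ℝ) ^ (1 / (d : ℝ)) ≤ 4 := by
    calc (4 : ℝ) ^ (1 / (d : ℝ)) ≤ (4 : ℝ) ^ (1 : ℝ) := by
          apply Real.rpow_le_rpow_of_exponent_le (by norm_num)
          rw [div_le_one hd0]
          exact hd1
      _ = 4 := Real.rpow_one 4
  rw [h6, div_le_iff₀ hS0]
  linarith only [h7, hm2]

theorem pen (edp : EdpStmt) (crg : CrgStmt) : PenStmt := by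
  intro d hd
  obtain ⟨C₀, hC₀, crg⟩ := crg d hd
  have hC₀0 : 0 < C₀ := by linarith only [hC₀]
  have hd1 : (1 : ℝ) ≤ d := by exact_mod_cast hd
  have hd0 : (0 : ℝ) < d := by linarith only [hd1]
  obtain ⟨A, hA⟩ : ∃ A : ℝ, A = 50 * d * (5 * d + 6) := ⟨_, rfl⟩
  have hA0 : 1 ≤ A := by
    have hdd : (0 : ℝ) ≤ (d : ℝ) * d := mul_nonneg hd0.le hd0.le
    rw [hA]
    linarith only [hdd, hd1]
  obtain ⟨K, hK⟩ : ∃ K : ℝ, K = 2 * (2 * d + 2) * (A + 1) + 5 := ⟨_, rfl⟩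
  have hK1 : 1 ≤ K := by
    have : 0 ≤ 2 * (2 * (d : ℝ) + 2) * (A + 1) :=
      mul_nonneg (by linarith only [hd0]) (by linarith only [hA0])
    rw [hK]
    linarith only [this]
  obtain ⟨C₁, hC₁⟩ : ∃ C₁ : ℝ, C₁ = C₀ * ((2 * d + 2) * (2 * d + 3) * (120 * d)) := ⟨_, rfl⟩
  have hK4 : 0 ≤ (64 * K) ^ 4 := pow_nonneg (by linarith only [hK1]) 4
  obtain ⟨C, hC⟩ : ∃ C : ℝ, C = C₁ + (64 * K) ^ 4 + 300 * d + 200 := ⟨_, rfl⟩
  have hC₁0 : 0 ≤ C₁ := by
    rw [hC₁]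
    exact mul_nonneg hC₀0.le (by positivity)
  refine ⟨1 / (200 * d), C, by positivity, by rw [hC]; linarith only [hC₁0, hK4, hd0], ?_⟩
  intro M' v σ t z μ p E g hσ hσ2 hv hz0 hz hσt hCt hμ hM hflat hp hLya hE
  have ht200 : 200 ≤ t := by linarith only [hCt, hC, hC₁0, hK4, hd0]
  have ht300 : 300 * d ≤ t := by linarith only [hCt, hC, hC₁0, hK4]
  have htK : (64 * K) ^ 4 ≤ t := by linarith only [hCt, hC, hC₁0, hd0]
  have ht0 : 0 < t := by linarith only [ht200]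
  have hσ0 : 0 < |σ| := abs_pos.2 hσ
  obtain ⟨w, hw⟩ : ∃ w : ℝ, w = Real.log t := ⟨_, rfl⟩
  rw [← hw]
  have hw1 : 1 ≤ w := by
    rw [hw, Real.le_log_iff_exp_le ht0]
    have := Real.exp_one_lt_d9
    linarith only [this, ht200]
  have hw0 : 0 ≤ w := by linarith only [hw1]
  have hexpw : Real.exp w = t := by rw [hw, Real.exp_log ht0]
  obtain ⟨lam, hlam⟩ : ∃ lam : ℝ, lam = |E - z| + 1 / t := ⟨_, rfl⟩
  rw [← hlam]
  have hlam0 : 0 < lam := by
    rw [hlam]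
    exact add_pos_of_nonneg_of_pos (abs_nonneg _) (one_div_pos.2 ht0)
  have hlamt : 1 / t ≤ lam := by
    rw [hlam]
    linarith only [abs_nonneg (E - z)]
  have hlam2 : lam ≤ 1 / (100 * d) := by
    have h1 : 1 / t ≤ 1 / (200 * d) :=
      one_div_le_one_div_of_le (mul_pos (by norm_num) hd0) (by linarith only [ht300, hd0])
    have h2 : 1 / (100 * (d : ℝ)) = 1 / (200 * d) + 1 / (200 * d) := by
      field_simp
      norm_num
    rw [hlam, h2]
    linarith only [h1, hE]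
  obtain ⟨m, hm1, hm2, hm3⟩ := exists_m hd1 hlam0 hlam2
  obtain ⟨S, hS⟩ : ∃ S : ℝ, S = 2 * (m : ℝ) + 1 := ⟨_, rfl⟩
  rw [← hS] at hm2 hm3
  have hS1 : 1 ≤ S := by
    rw [hS]
    have : (0 : ℝ) ≤ m := Nat.cast_nonneg m
    linarith only [this]
  have hsl : 0 < Real.sqrt lam := Real.sqrt_pos.2 hlam0
  have hlt : 1 ≤ lam * t := by
    rw [div_le_iff₀ ht0] at hlamt
    exact hlamt
  -- S ≤ √t
  have hSt : S ≤ Real.sqrt t := by
    have h1 : 1 ≤ Real.sqrt lam * Real.sqrt t := by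
      rw [← Real.sqrt_mul hlam0.le]
      calc (1 : ℝ) = Real.sqrt 1 := Real.sqrt_one.symm
        _ ≤ _ := Real.sqrt_le_sqrt hlt
    have h3 : Real.sqrt lam * S ≤ Real.sqrt lam * Real.sqrt t := hm3.trans h1
    exact le_of_mul_le_mul_left h3 hsl
  have hst1 : 1 ≤ Real.sqrt t := hS1.trans hSt
  have hstt : Real.sqrt t * Real.sqrt t = t := Real.mul_self_sqrt ht0.le
  have hstt2 : Real.sqrt t ≤ t := by
    calc Real.sqrt t = Real.sqrt t * 1 := (mul_one _).symm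
      _ ≤ Real.sqrt t * Real.sqrt t := mul_le_mul_of_nonneg_left hst1 (Real.sqrt_nonneg t)
      _ = t := hstt
  obtain ⟨J, hJ⟩ : ∃ J : ℕ, J = ⌈2 * d * w⌉₊ + 1 := ⟨_, rfl⟩
  obtain ⟨R₁, hR₁⟩ : ∃ R₁ : ℕ, R₁ = ⌈A * w * S⌉₊ := ⟨_, rfl⟩
  have hJ1 : (1 : ℕ) ≤ J := by rw [hJ]; exact Nat.le_add_left 1 _
  have hJle : (J : ℝ) ≤ (2 * d + 2) * w := by
    have h1 := (Nat.ceil_lt_add_one (mul_nonneg (mul_nonneg zero_le_two hd0.le) hw0)).le
    rw [hJ]
    push_cast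
    linarith only [h1, hw1]
  have hJge : 2 * d * w + 1 ≤ (J : ℝ) := by
    have h1 := Nat.le_ceil (2 * (d : ℝ) * w)
    rw [hJ]
    push_cast
    linarith only [h1]
  have hR₁ge : A * w * S ≤ (R₁ : ℝ) := by rw [hR₁]; exact Nat.le_ceil _
  have hwS : 1 ≤ w * S := one_le_mul_of_one_le_of_one_le hw1 hS1
  have hR₁le : (R₁ : ℝ) ≤ (A + 1) * (w * S) := by
    have h1 := (Nat.ceil_lt_add_one (mul_nonneg (mul_nonneg (by linarith only [hA0]) hw0)
      (by linarith only [hS1]) : 0 ≤ A * w * S)).le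
    rw [← hR₁] at h1
    have h2 : (A + 1) * (w * S) = A * w * S + w * S := by ring
    rw [h2]
    linarith only [h1, hwS]
  have hR₁1 : 1 ≤ R₁ := by
    have h1 : (1 : ℝ) ≤ R₁ := by
      have : 1 ≤ A * (w * S) := one_le_mul_of_one_le_of_one_le hA0 hwS
      have h2 : A * (w * S) = A * w * S := by ring
      linarith only [this, h2, hR₁ge]
    exact_mod_cast h1
  -- the size of the cube
  obtain ⟨X, hX⟩ : ∃ X : ℝ, X = ((J * R₁ : ℕ) : ℝ) := ⟨_, rfl⟩
  have hbig : 2 * X + 5 ≤ t := by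
    have h1 : (J : ℝ) * R₁ ≤ ((2 * d + 2) * w) * ((A + 1) * (w * Real.sqrt t)) := by
      apply mul_le_mul hJle _ (Nat.cast_nonneg _) (mul_nonneg (by linarith only [hd0]) hw0)
      refine hR₁le.trans ?_
      apply mul_le_mul_of_nonneg_left _ (by linarith only [hA0])
      exact mul_le_mul_of_nonneg_left hSt hw0
    have h2 : 5 ≤ 5 * (w ^ 2 * Real.sqrt t) := by
      have : 1 ≤ w ^ 2 * Real.sqrt t :=
        one_le_mul_of_one_le_of_one_le (one_le_pow₀ hw1) hst1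
      linarith only [this]
    have h3 : K * w ^ 2 ≤ Real.sqrt t := by
      rw [hw]
      exact log_sq_le hK1 htK
    rw [hX]
    push_cast
    calc 2 * ((J : ℝ) * R₁) + 5 ≤ 2 * (((2 * d + 2) * w) * ((A + 1) * (w * Real.sqrt t))) +
          5 * (w ^ 2 * Real.sqrt t) := by linarith only [h1, h2]
      _ = (K * w ^ 2) * Real.sqrt t := by rw [hK]; ring
      _ ≤ Real.sqrt t * Real.sqrt t := mul_le_mul_of_nonneg_right h3 (Real.sqrt_nonneg t)
      _ = t := hstt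
  have hX0 : 0 ≤ X := by rw [hX]; exact Nat.cast_nonneg _
  have hM2 : 2 * (J * R₁ + 2) ≤ M' := by
    have h1 : (2 * (X + 2) : ℝ) ≤ M' := by linarith only [hbig, hM]
    rw [hX] at h1
    exact_mod_cast h1
  obtain ⟨G, hG⟩ : ∃ G : ℝ, G = t ^ (3 * d + 4) := ⟨_, rfl⟩
  have hG1 : 1 ≤ G := by rw [hG]; exact one_le_pow₀ (by linarith only [ht200])
  have hG0 : 0 < G := by linarith only [hG1]
  obtain ⟨s, hs⟩ : ∃ s : ℝ, s = (2 * d + 1) * w := ⟨_, rfl⟩
  have hexps : Real.exp s = t ^ (2 * d + 1) := by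
    rw [hs, ← hexpw, ← Real.exp_nat_mul]
    push_cast
    rfl
  have hcond1 : (2 * (J * R₁) + 1) ^ d < 2 ^ J := by
    have h8 := cond1 rfl hd0 hw1 hexpw hX0 hbig hJge
    rw [hX] at h8
    exact_mod_cast h8
  have hcond2 : 200 * (2 * ((J * R₁ : ℕ) : ℝ) + 1) ^ (2 * d) ≤ Real.exp s := by
    rw [hexps, pow_succ, ← hX]
    have h1 : (2 * X + 1) ^ (2 * d) ≤ t ^ (2 * d) :=
      pow_le_pow_left₀ (by linarith only [hX0]) (by linarith only [hbig]) _
    calc 200 * (2 * X + 1) ^ (2 * d) ≤ t * t ^ (2 * d) :=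
          mul_le_mul ht200 h1 (pow_nonneg (by linarith only [hX0]) _) ht0.le
      _ = _ := mul_comm _ _
  have hcond3 : 300 * d * (2 * ((J * R₁ : ℕ) : ℝ) + 3) ^ (2 * d) * G ≤
      Real.exp (R₁ / (50 * d * (2 * (m : ℝ) + 1))) := by
    rw [← hS, ← hX, hG]
    exact cond3 rfl hd0 hexpw hX0 hbig hA hS1 hR₁ge ht300 ht200
  -- the probability
  obtain ⟨p', hp'⟩ : ∃ p' : ℝ, p' = max p 0 := ⟨_, rfl⟩
  have hp'0 : 0 ≤ p' := by rw [hp']; exact le_max_right _ _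
  obtain ⟨q₂, hq₂⟩ : ∃ q₂ : ℝ, q₂ = 10 * (2 * X + 3) ^ (2 * d) / (|σ| * G) := ⟨_, rfl⟩
  have hq₂0 : 0 ≤ q₂ := by
    rw [hq₂]
    exact div_nonneg (mul_nonneg (by norm_num) (pow_nonneg (by linarith only [hX0]) _))
      (mul_nonneg hσ0.le hG0.le)
  have hq0 : 0 ≤ p' + q₂ := add_nonneg hp'0 hq₂0
  have htd : 0 < t ^ d := pow_pos ht0 d
  have hp'le : p' * t ^ d ≤ 1 / 2 := by
    have h1 : p' ≤ t ^ (-C) := by rw [hp']; exact max_le hp (Real.rpow_nonneg ht0.le _)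
    have h2 : t ^ (-C) ≤ t ^ (-((d + 1 : ℕ) : ℝ)) := by
      apply Real.rpow_le_rpow_of_exponent_le (by linarith only [ht200])
      push_cast
      rw [hC]
      linarith only [hC₁0, hK4, hd0]
    rw [Real.rpow_neg ht0.le ((d + 1 : ℕ) : ℝ), Real.rpow_natCast] at h2
    have h3 : p' * t ^ d ≤ (t ^ (d + 1))⁻¹ * t ^ d :=
      mul_le_mul_of_nonneg_right (h1.trans h2) htd.le
    refine h3.trans ?_
    rw [pow_succ, mul_inv, mul_right_comm, inv_mul_cancel₀ htd.ne', one_mul, ← one_div]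
    exact one_div_le_one_div_of_le (by norm_num) (by linarith only [ht200])
  have hq2 : q₂ * t ^ d ≤ 1 / 2 := by
    rw [hq₂, hG]
    exact q2le hX0 hbig ht200 hσ0 hσt
  obtain ⟨a, ha⟩ : ∃ a : ℕ, a = (2 * m + 1) ^ d := ⟨_, rfl⟩
  have ha1 : 1 ≤ a := by rw [ha]; exact Nat.one_le_pow _ _ (Nat.succ_pos _)
  obtain ⟨n, hn⟩ : ∃ n : ℕ, n = (a + 3) / 4 := ⟨_, rfl⟩
  have hn3 : 1 ≤ n ∧ n ≤ a ∧ a ≤ 4 * n := by
    clear hC₁0 hK4
    omega
  obtain ⟨hn1, hna, han⟩ := hn3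
  have haS : (a : ℝ) = S ^ d := by
    rw [ha, hS]
    push_cast
    rfl
  have hnt : (n : ℝ) ≤ t ^ d := by
    have h1 : (n : ℝ) ≤ a := by exact_mod_cast hna
    refine h1.trans ?_
    rw [haS]
    exact pow_le_pow_left₀ (by linarith only [hS1]) (hSt.trans hstt2) d
  have hqn : (p' + q₂) * n ≤ 1 := by
    refine (mul_le_mul_of_nonneg_left hnt hq0).trans ?_
    rw [add_mul]
    linarith only [hp'le, hq2]
  have hE2 : |E| ≤ 2 * d + 2 := by
    have h1 : |E| ≤ |E - z| + |z| := by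
      have := abs_add_le (E - z) z
      rwa [sub_add_cancel] at this
    rw [abs_of_nonneg hz0] at h1
    have h2 : 1 / (200 * (d : ℝ)) ≤ 1 := by
      rw [div_le_one (mul_pos (by norm_num) hd0)]
      linarith only [hd1]
    linarith only [h1, hz, hE, h2]
  have hs1 : 1 ≤ s := by
    rw [hs]
    exact one_le_mul_of_one_le_of_one_le (by linarith only [hd0]) hw1
  have key := crg σ E s (p' + q₂) g J n (J * R₁ + 1) hσ0 hσ2 hE2 hs1 hJ1 hn1
    (Nat.le_add_left 1 _) hLya hq0 hqn ?_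
  · refine key.trans ?_
    -- numbers
    obtain ⟨u, hu⟩ : ∃ u : ℝ, u = Real.log (1 / |σ|) := ⟨_, rfl⟩
    obtain ⟨r, hr⟩ : ∃ r : ℝ, r = Real.log ((J * R₁ + 1 : ℕ) : ℝ) := ⟨_, rfl⟩
    have hlσ : u ≤ w := by rw [hu, hw]; exact Real.log_le_log (one_div_pos.2 hσ0) hσt
    have hlρ : r ≤ w := by
      rw [hr, hw]
      apply Real.log_le_log
      · exact_mod_cast Nat.succ_pos _
      · rw [Nat.cast_add, Nat.cast_one, ← hX]
        linarith only [hbig, hX0]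
    have hlρ0 : 0 ≤ r := by rw [hr]; exact Real.log_natCast_nonneg _
    have hlσ0 : 0 ≤ u := by
      rw [hu]
      apply Real.log_nonneg
      rw [le_div_iff₀ hσ0]
      linarith only [hσ2]
    rw [← hu, ← hr]
    have h1 : s + u + r ≤ (2 * d + 3) * w := by
      rw [hs]
      linarith only [hlσ, hlρ]
    have h2 : (n : ℝ) ^ (-(1 / (d : ℝ))) ≤ 120 * d * Real.sqrt lam :=
      nle hd hS1 haS han hm2
    have hdw : 0 ≤ (2 * (d : ℝ) + 2) * w := mul_nonneg (by linarith only [hd0]) hw0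
    have h8 : C₀ * J * (s + u + r) ≤ C₀ * ((2 * d + 2) * w) * ((2 * d + 3) * w) := by
      apply mul_le_mul _ h1 (by linarith only [hs1, hlσ0, hlρ0]) (mul_nonneg hC₀0.le hdw)
      exact mul_le_mul_of_nonneg_left hJle hC₀0.le
    calc C₀ * J * (s + u + r) * (n : ℝ) ^ (-(1 / (d : ℝ))) ≤
          C₀ * ((2 * d + 2) * w) * ((2 * d + 3) * w) * (120 * d * Real.sqrt lam) := by
          apply mul_le_mul h8 h2 (Real.rpow_nonneg (Nat.cast_nonneg _) _)
          exact mul_nonneg (mul_nonneg hC₀0.le hdw) (mul_nonneg (by linarith only [hd0]) hw0)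
      _ = C₁ * (Real.sqrt lam * w ^ 2) := by rw [hC₁]; ring
      _ ≤ C * (Real.sqrt lam * w ^ 2) := by
          apply mul_le_mul_of_nonneg_right _ (mul_nonneg hsl.le (sq_nonneg w))
          rw [hC]
          linarith only [hK4, hd0]
      _ = _ := by ring
  · intro N b hb
    have h1 := edp d M' J R₁ m N v σ E s z μ lam G p' b hd hσ hv (by linarith only [hμ, ht0])
      ?_ ?_ hm1 hG1 hJ1 hR₁1 hM2 hp'0 ?_ hb hcond1 hcond2 hcond3
    · rw [hq₂, hX]
      refine (measure_mono ?_).trans h1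
      intro V hV
      simp only [Set.mem_setOf_eq] at hV ⊢
      intro h2
      apply hV
      have h3 : (rch V (box 0 N) E s b (J * R₁) J).card ≤
          (rch V (box 0 N) E s b (J * R₁ + 1) J).card :=
        Finset.card_le_card (rch_mono_rad (Nat.le_succ _) J)
      rw [← ha] at h2
      omega
    · calc (1 : ℝ) ≤ lam * t := hlt
        _ ≤ lam * μ := mul_le_mul_of_nonneg_left (by linarith only [hμ, ht0]) hlam0.le
    · rw [hlam]
      have : 0 < 1 / t := one_div_pos.2 ht0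
      linarith only [this]
    · intro h
      exact (hflat h).trans (ENNReal.ofReal_le_ofReal (by rw [hp']; exact le_max_left _ _))

end Pool.Agent.LE.CL.H45
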